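import Mathlib

set_option autoImplicit false

/-!
# A group of order `2 ^ 3 * 3 ^ 10`

The group is `E ^ 3 ⋊ SL(2, 3)`, where `E` is extraspecial of order `27` and exponent `3`, the
group `SL(2, 3) = Q ⋊ C` (with `Q` the quaternion group of order `8` and `C` of order `3`) acts
through its quotient `A₄`: the group `C` permutes the three factors cyclically, and `Q` acts
through the even sign changes.
-/

namespace Pool.Agent.H13

/-- Functions on the three coordinates with values in the field with three elements. -/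
abbrev F3 : Type := ZMod 3 → ZMod 3

/-- The sign `(-1) ^ a`. -/
def sg (a : ZMod 2) : ZMod 3 := if a = 0 then 1 else -1

theorem sg_zero : sg 0 = 1 := by decide
theorem sg_add : ∀ a b : ZMod 2, sg (a + b) = sg a * sg b := by decide
theorem sg_mul_self : ∀ a : ZMod 2, sg a * sg a = 1 := by decide

/-- The even sign vector attached to two bits. -/
def uf (v : ZMod 2 × ZMod 2) (i : ZMod 3) : ZMod 2 :=
  if i = 0 then v.1 else if i = 1 then v.2 else v.1 + v.2

theorem uf_zero : ∀ i : ZMod 3, uf 0 i = 0 := by decide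
theorem uf_add : ∀ (v w : ZMod 2 × ZMod 2) (i : ZMod 3), uf (v + w) i = uf v i + uf w i := by
  decide

/-- Rotation of the even sign vectors. -/
def rot (k : ZMod 3) (v : ZMod 2 × ZMod 2) : ZMod 2 × ZMod 2 := (uf v k, uf v (k + 1))

theorem uf_rot : ∀ (k : ZMod 3) (v : ZMod 2 × ZMod 2) (i : ZMod 3),
    uf (rot k v) i = uf v (i + k) := by decide
theorem rot_zero : ∀ v : ZMod 2 × ZMod 2, rot 0 v = v := by decide
theorem rot_add : ∀ (k : ZMod 3) (v w : ZMod 2 × ZMod 2), rot k (v + w) = rot k v + rot k w := by
  decide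
theorem rot_rot : ∀ (k l : ZMod 3) (v : ZMod 2 × ZMod 2), rot k (rot l v) = rot (k + l) v := by
  decide
theorem rot_map_zero : ∀ k : ZMod 3, rot k 0 = 0 := by decide

/-- The cocycle defining the quaternion group of order `8`. -/
def bet (v w : ZMod 2 × ZMod 2) : ZMod 2 := v.1 * w.1 + v.2 * w.2 + v.1 * w.2

theorem bet_rot : ∀ (k : ZMod 3) (v w : ZMod 2 × ZMod 2), bet (rot k v) (rot k w) = bet v w := by
  decide
theorem bet_zero_left : ∀ w : ZMod 2 × ZMod 2, bet 0 w = 0 := by decide
theorem bet_zero_right : ∀ w : ZMod 2 × ZMod 2, bet w 0 = 0 := by decide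
theorem bet_add_left (u v w : ZMod 2 × ZMod 2) : bet (u + v) w = bet u w + bet v w := by
  simp only [bet, Prod.fst_add, Prod.snd_add]; ring
theorem bet_add_right (u v w : ZMod 2 × ZMod 2) : bet u (v + w) = bet u v + bet u w := by
  simp only [bet, Prod.fst_add, Prod.snd_add]; ring

/-- The group of order `2 ^ 3 * 3 ^ 10`. -/
@[ext]
structure NG : Type where
  /-- first coordinate of the Heisenberg part -/
  s : F3
  /-- central coordinate of the Heisenberg part -/
  t : F3
  /-- second coordinate of the Heisenberg part -/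
  y : F3
  /-- the image in the four group -/
  v : ZMod 2 × ZMod 2
  /-- the central bit of the quaternion group -/
  e : ZMod 2
  /-- the rotation -/
  k : ZMod 3

namespace NG

instance : Mul NG where
  mul g h :=
    { s := fun i => g.s i + sg (uf g.v i) * h.s (i + g.k)
      t := fun i => g.t i + sg (uf g.v i) * h.t (i + g.k)
        + g.y i * (sg (uf g.v i) * h.s (i + g.k))
      y := fun i => g.y i + h.y (i + g.k)
      v := g.v + rot g.k h.v
      e := g.e + h.e + bet g.v (rot g.k h.v)
      k := g.k + h.k }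

instance : One NG where
  one := { s := 0, t := 0, y := 0, v := 0, e := 0, k := 0 }

instance : Inv NG where
  inv g :=
    { s := fun i => -(sg (uf g.v (i - g.k)) * g.s (i - g.k))
      t := fun i => -(sg (uf g.v (i - g.k)) * g.t (i - g.k))
        + g.y (i - g.k) * (sg (uf g.v (i - g.k)) * g.s (i - g.k))
      y := fun i => -g.y (i - g.k)
      v := rot (-g.k) g.v
      e := g.e + bet g.v g.v
      k := -g.k }

theorem mul_s (g h : NG) (i : ZMod 3) :
    (g * h).s i = g.s i + sg (uf g.v i) * h.s (i + g.k) := rfl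
theorem mul_t (g h : NG) (i : ZMod 3) :
    (g * h).t i = g.t i + sg (uf g.v i) * h.t (i + g.k)
      + g.y i * (sg (uf g.v i) * h.s (i + g.k)) := rfl
theorem mul_y (g h : NG) (i : ZMod 3) : (g * h).y i = g.y i + h.y (i + g.k) := rfl
theorem mul_v (g h : NG) : (g * h).v = g.v + rot g.k h.v := rfl
theorem mul_e (g h : NG) : (g * h).e = g.e + h.e + bet g.v (rot g.k h.v) := rfl
theorem mul_k (g h : NG) : (g * h).k = g.k + h.k := rfl
theorem one_s (i : ZMod 3) : (1 : NG).s i = 0 := rfl
theorem one_t (i : ZMod 3) : (1 : NG).t i = 0 := rfl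
theorem one_y (i : ZMod 3) : (1 : NG).y i = 0 := rfl
theorem one_v : (1 : NG).v = 0 := rfl
theorem one_e : (1 : NG).e = 0 := rfl
theorem one_k : (1 : NG).k = 0 := rfl
theorem inv_s (g : NG) (i : ZMod 3) :
    (g⁻¹).s i = -(sg (uf g.v (i - g.k)) * g.s (i - g.k)) := rfl
theorem inv_t (g : NG) (i : ZMod 3) :
    (g⁻¹).t i = -(sg (uf g.v (i - g.k)) * g.t (i - g.k))
        + g.y (i - g.k) * (sg (uf g.v (i - g.k)) * g.s (i - g.k)) := rfl
theorem inv_y (g : NG) (i : ZMod 3) : (g⁻¹).y i = -g.y (i - g.k) := rfl
theorem inv_v (g : NG) : (g⁻¹).v = rot (-g.k) g.v := rfl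
theorem inv_e (g : NG) : (g⁻¹).e = g.e + bet g.v g.v := rfl
theorem inv_k (g : NG) : (g⁻¹).k = -g.k := rfl

theorem add_self_two (a : ZMod 2) : a + a = 0 := CharTwo.add_self_eq_zero a
theorem add_self_two' (a : ZMod 2 × ZMod 2) : a + a = 0 :=
  Prod.ext (add_self_two _) (add_self_two _)

instance : Group NG :=
  Group.ofLeftAxioms
    (by
      intro g h l
      ext i
      · simp only [mul_s, mul_v, mul_k, uf_add, uf_rot, sg_add, add_assoc]; ring_nf
      · simp only [mul_s, mul_t, mul_y, mul_v, mul_k, uf_add, uf_rot, sg_add, add_assoc]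
        ring_nf
      · simp only [mul_y, mul_k, add_assoc]
      · simp only [mul_v, mul_k, rot_add, rot_rot, add_assoc]
      · simp only [mul_v, mul_k, rot_add, rot_rot, add_assoc]
      · simp only [mul_v, mul_e, mul_k, rot_add, bet_add_left, bet_add_right]
        rw [← rot_rot g.k h.k l.v, bet_rot]
        ring
      · simp only [mul_k, add_assoc])
    (by
      intro g
      ext i
      · simp only [mul_s, one_s, one_v, one_k, uf_zero, sg_zero, add_zero]; ring
      · simp only [mul_t, one_t, one_y, one_v, one_k, uf_zero, sg_zero, add_zero]; ring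
      · simp only [mul_y, one_y, one_k, add_zero, zero_add]
      · simp only [mul_v, one_v, one_k, rot_zero, zero_add]
      · simp only [mul_v, one_v, one_k, rot_zero, zero_add]
      · simp only [mul_e, one_e, one_v, bet_zero_left, zero_add, add_zero]
      · simp only [mul_k, one_k, zero_add])
    (by
      intro g
      ext i
      · simp only [mul_s, inv_s, inv_v, inv_k, uf_rot, one_s, ← sub_eq_add_neg]; ring
      · simp only [mul_t, inv_t, inv_y, inv_v, inv_k, uf_rot, one_t, ← sub_eq_add_neg]; ring
      · simp only [mul_y, inv_y, inv_k, one_y, ← sub_eq_add_neg]; ring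
      · simp only [mul_v, inv_v, inv_k, one_v, add_self_two']
      · simp only [mul_v, inv_v, inv_k, one_v, add_self_two']
      · simp only [mul_e, inv_e, inv_v, inv_k, bet_rot, one_e]
        linear_combination add_self_two g.e + add_self_two (bet g.v g.v)
      · simp only [mul_k, inv_k, one_k]; ring)

/-- The underlying product type. -/
def equivProd : NG ≃ F3 × F3 × F3 × (ZMod 2 × ZMod 2) × ZMod 2 × ZMod 3 where
  toFun g := (g.s, g.t, g.y, g.v, g.e, g.k)
  invFun p := ⟨p.1, p.2.1, p.2.2.1, p.2.2.2.1, p.2.2.2.2.1, p.2.2.2.2.2⟩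
  left_inv _ := rfl
  right_inv _ := rfl

instance : Fintype NG := Fintype.ofEquiv _ equivProd.symm

theorem card_NG : Fintype.card NG = 472392 := by
  rw [Fintype.card_congr equivProd]
  simp [Fintype.card_prod, Fintype.card_pi, ZMod.card]

end NG

end Pool.Agent.H13
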