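import Mathlib

set_option autoImplicit false

namespace Pool.Agent.H13

open CategoryTheory Module

/-- A simple object of `FDRep` has no proper invariant subspaces. -/
theorem eq_top_of_simple {G : Type} [Group G] (V : FDRep ℂ G) [Simple V]
    (W : Submodule ℂ V) (hW : ∀ g : G, ∀ v ∈ W, V.ρ g v ∈ W) (hne : W ≠ ⊥) : W = ⊤ := by
  let σ : Subrepresentation V.ρ := ⟨W, fun g v hv => hW g v hv⟩
  let X : FDRep ℂ G := FDRep.of σ.toRepresentation
  let f : X ⟶ V := by
    refine ⟨InducedCategory.homMk (ModuleCat.ofHom W.subtype), fun g => ?_⟩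
    ext1
    ext v
    rfl
  have hfv : ∀ w : W, f.hom.hom.hom w = (w : V) := fun w => rfl
  have hmono : Mono f := by
    constructor
    intro Z a b hab
    ext z
    have h1 := congrArg (fun h : Z ⟶ V => h.hom.hom.hom z) hab
    have h2 : (f.hom.hom.hom (a.hom.hom.hom z)) = (f.hom.hom.hom (b.hom.hom.hom z)) := h1
    exact h2
  have hf0 : f ≠ 0 := by
    intro h
    obtain ⟨w, hw, hw0⟩ := (Submodule.ne_bot_iff W).mp hne
    have h1 := congrArg (fun h : X ⟶ V => h.hom.hom.hom (⟨w, hw⟩ : W)) h
    exact hw0 h1
  have hiso : IsIso f := (Simple.mono_isIso_iff_nonzero f).mpr hf0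
  rw [eq_top_iff]
  intro v _
  have h2 : (inv f ≫ f).hom.hom.hom v = v := by
    rw [IsIso.inv_hom_id]; rfl
  have h3 : (f.hom.hom.hom ((inv f).hom.hom.hom v)) = v := h2
  rw [← h3]
  exact ((inv f).hom.hom.hom v : W).2

/-- The space of a simple object of `FDRep` is nonzero. -/
theorem nontrivial_of_simple {G : Type} [Group G] (V : FDRep ℂ G) [Simple V] : Nontrivial V := by
  by_contra h
  rw [not_nontrivial_iff_subsingleton] at h
  apply Simple.not_isZero V
  rw [Limits.IsZero.iff_id_eq_zero]
  ext v
  exact Subsingleton.elim _ _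

/-- An irreducible finite-dimensional representation gives a simple object of `FDRep`. -/
theorem simple_of_irreducible {G : Type} [Group G] [Finite G] {V : Type} [AddCommGroup V]
    [Module ℂ V] [Module.Finite ℂ V] (ρ : Representation ℂ G V)
    (hρ : ρ.IsIrreducible) : Simple (FDRep.of ρ) := by
  have : NeZero (Nat.card G : ℂ) := ⟨by exact_mod_cast Nat.card_pos.ne'⟩
  rw [FDRep.simple_iff_end_is_rank_one]
  have h1 := Representation.IsIrreducible.finrank_intertwiningMap_self ρ
  have e := (FDRep.forget₂HomLinearEquiv (FDRep.of ρ) (FDRep.of ρ)).symm.trans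
    (Rep.homLinearEquiv _ _)
  rw [e.finrank_eq]
  exact h1

/-- If a nonzero vector of a simple object spans a line stable under a subgroup `M`, then the
dimension is at most the index of `M`. -/
theorem finrank_le_index {G : Type} [Group G] [Finite G] (V : FDRep ℂ G) [Simple V]
    (v : V) (hv : v ≠ 0) (M : Subgroup G) (hM : ∀ m ∈ M, ∃ c : ℂ, V.ρ m v = c • v) :
    finrank ℂ V ≤ M.index := by
  classical
  have : Fintype (G ⧸ M) := Fintype.ofFinite _
  let f : G ⧸ M → V := fun q => V.ρ q.out v
  have key : ∀ g : G, V.ρ g v ∈ Submodule.span ℂ (Set.range f) := by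
    intro g
    obtain ⟨m, hm⟩ := QuotientGroup.mk_out_eq_mul M g
    obtain ⟨c, hc⟩ := hM m.1⁻¹ (M.inv_mem m.2)
    have h1 : V.ρ g v = c • f (g : G ⧸ M) := by
      have h2 : g = (g : G ⧸ M).out * (m.1)⁻¹ := by
        rw [hm]; group
      calc V.ρ g v = V.ρ ((g : G ⧸ M).out * (m.1)⁻¹) v := by rw [← h2]
        _ = V.ρ ((g : G ⧸ M).out) (V.ρ (m.1)⁻¹ v) := by rw [map_mul]; rfl
        _ = c • f (g : G ⧸ M) := by rw [hc, map_smul]
    rw [h1]
    exact Submodule.smul_mem _ _ (Submodule.subset_span ⟨_, rfl⟩)
  have htop : Submodule.span ℂ (Set.range f) = ⊤ := by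
    apply eq_top_of_simple V
    · intro g w hw
      induction hw using Submodule.span_induction with
      | mem x hx =>
        obtain ⟨q, rfl⟩ := hx
        have : V.ρ g (f q) = V.ρ (g * q.out) v := by rw [map_mul]; rfl
        rw [this]
        exact key _
      | zero => simp
      | add x y _ _ hx hy => rw [map_add]; exact Submodule.add_mem _ hx hy
      | smul a x _ hx => rw [map_smul]; exact Submodule.smul_mem _ _ hx
    · intro hbot
      have := key 1
      rw [hbot, Submodule.mem_bot, map_one] at this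
      exact hv this
  rw [← finrank_top ℂ V, ← htop]
  calc finrank ℂ (Submodule.span ℂ (Set.range f)) ≤ Fintype.card (G ⧸ M) := finrank_range_le_card f
    _ = M.index := by rw [Subgroup.index, Nat.card_eq_fintype_card]

/-- A simple object has dimension at most the order of the group. -/
theorem finrank_le_card {G : Type} [Group G] [Finite G] (V : FDRep ℂ G) [Simple V] :
    finrank ℂ V ≤ Nat.card G := by
  have := nontrivial_of_simple V
  obtain ⟨v, hv⟩ := exists_ne (0 : V)
  have h := finrank_le_index V v hv ⊥ (by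
    intro m hm
    rw [Subgroup.mem_bot] at hm
    subst hm
    exact ⟨1, by simp⟩)
  rwa [Subgroup.index_bot] at h

set_option backward.isDefEq.respectTransparency false in
/-- Auxiliary: an element killing all simple objects kills all simple left ideals. -/
theorem kill_aux {G : Type} [Group G] [Finite G]
    (m : Submodule (MonoidAlgebra ℂ G) (MonoidAlgebra ℂ G))
    (hm : IsSimpleModule (MonoidAlgebra ℂ G) m) (e x : MonoidAlgebra ℂ G) (hx : x ∈ m)
    (hcon : ∀ V : FDRep ℂ G, Simple V → ∀ v : V, Representation.asAlgebraHom V.ρ e v = 0) :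
    e * x = 0 := by
  have hirr := (Representation.isSimpleModule_iff_irreducible_ofModule (k := ℂ) (G := G) m).mp hm
  have hfin : Module.Finite ℂ (RestrictScalars ℂ (MonoidAlgebra ℂ G) m) := by
    let f : (RestrictScalars ℂ (MonoidAlgebra ℂ G) m) →ₗ[ℂ] MonoidAlgebra ℂ G :=
      { toFun := fun x => m.subtype ((RestrictScalars.addEquiv ℂ (MonoidAlgebra ℂ G) m) x)
        map_add' := fun x y => by rw [map_add, map_add]
        map_smul' := fun c x => by
          rw [RestrictScalars.addEquiv_map_smul, map_smul]
          simp [Algebra.smul_def] }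
    exact Module.Finite.of_injective f (fun x y hxy => by
      apply (RestrictScalars.addEquiv ℂ (MonoidAlgebra ℂ G) m).injective
      exact Subtype.ext hxy)
  let x' : RestrictScalars ℂ (MonoidAlgebra ℂ G) m :=
    (RestrictScalars.addEquiv ℂ (MonoidAlgebra ℂ G) m).symm ⟨x, hx⟩
  have h := hcon (FDRep.of (Representation.ofModule (k := ℂ) (G := G) m))
      (simple_of_irreducible _ hirr) x'
  have h2 := Representation.ofModule_asAlgebraHom_apply_apply (k := ℂ) (G := G) m e x'
  have h4 : (RestrictScalars.addEquiv ℂ (MonoidAlgebra ℂ G) m).symm (e • (⟨x, hx⟩ : m)) = 0 :=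
    h2.symm.trans h
  have h3 : e • (⟨x, hx⟩ : m) = 0 := by
    apply (RestrictScalars.addEquiv ℂ (MonoidAlgebra ℂ G) m).symm.injective
    rw [h4, map_zero]
  exact congrArg Subtype.val h3

/-- Every nonzero element of the complex group algebra of a finite group acts nontrivially on
some simple object of `FDRep`. -/
theorem exists_simple_apply_ne_zero {G : Type} [Group G] [Finite G] (e : MonoidAlgebra ℂ G)
    (he : e ≠ 0) :
    ∃ V : FDRep ℂ G, Simple V ∧ ∃ v : V, Representation.asAlgebraHom V.ρ e v ≠ 0 := by
  have : NeZero (Nat.card G : ℂ) := ⟨by exact_mod_cast Nat.card_pos.ne'⟩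
  have hss := IsSemisimpleModule.sSup_simples_eq_top (MonoidAlgebra ℂ G) (MonoidAlgebra ℂ G)
  by_contra hcon
  push Not at hcon
  have hall : ∀ x : MonoidAlgebra ℂ G, e * x = 0 := by
    intro x
    have hx : x ∈ sSup {m : Submodule (MonoidAlgebra ℂ G) (MonoidAlgebra ℂ G) |
        IsSimpleModule (MonoidAlgebra ℂ G) m} := by rw [hss]; trivial
    rw [sSup_eq_iSup'] at hx
    induction hx using Submodule.iSup_induction' with
    | mem m x hx => exact kill_aux m.1 m.2 e x hx hcon
    | zero => simp
    | add x y _ _ hx hy => rw [mul_add, hx, hy, add_zero]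
  have := hall 1
  rw [mul_one] at this
  exact he this

end Pool.Agent.H13
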