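import Mathlib
import Pool.Agent.H13.NavGroup
import Pool.Agent.H13.RepGen

set_option autoImplicit false

/-!
# Characters of the abelian normal subgroup and eigenspaces
-/

namespace Pool.Agent.H13

open Module

/-- Two functions on the three coordinates. -/
abbrev BB : Type := F3 × F3

/-- The pairing on `BB`. -/
def pair (x b : BB) : ZMod 3 := ∑ i, (x.1 i * b.1 i + x.2 i * b.2 i)

theorem pair_add_right (x b c : BB) : pair x (b + c) = pair x b + pair x c := by
  simp only [pair, ← Finset.sum_add_distrib]
  refine Finset.sum_congr rfl fun i _ => ?_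
  simp only [Prod.fst_add, Prod.snd_add, Pi.add_apply]; ring

theorem pair_zero_right (x : BB) : pair x 0 = 0 := by simp [pair]

theorem pair_comm (x b : BB) : pair x b = pair b x := by
  simp only [pair]
  refine Finset.sum_congr rfl fun i _ => ?_
  ring

theorem exists_pair_ne_zero (x : BB) (hx : x ≠ 0) : ∃ b, pair x b ≠ 0 := by
  by_contra hcon
  push Not at hcon
  apply hx
  apply Prod.ext
  · funext i
    have := hcon (Pi.single i 1, 0)
    simpa [pair, Pi.single_apply, Finset.sum_add_distrib] using this
  · funext i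
    have := hcon (0, Pi.single i 1)
    simpa [pair, Pi.single_apply, Finset.sum_add_distrib] using this

/-- The character of `BB` attached to `x`. -/
noncomputable def chB (x : BB) : AddChar BB ℂ where
  toFun b := ZMod.stdAddChar (pair x b)
  map_zero_eq_one' := by rw [pair_zero_right, AddChar.map_zero_eq_one]
  map_add_eq_mul' b c := by rw [pair_add_right, AddChar.map_add_eq_mul]

theorem chB_apply (x b : BB) : chB x b = ZMod.stdAddChar (pair x b) := rfl

theorem chB_comm (x b : BB) : chB x b = chB b x := by
  rw [chB_apply, chB_apply, pair_comm]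

theorem chB_eq_zero_iff (x : BB) : chB x = 0 ↔ x = 0 := by
  constructor
  · intro h
    by_contra hx
    obtain ⟨b, hb⟩ := exists_pair_ne_zero x hx
    have h1 : chB x b = 1 := by rw [h]; rfl
    rw [chB_apply] at h1
    apply hb
    apply ZMod.injective_stdAddChar
    rw [h1, AddChar.map_zero_eq_one]
  · rintro rfl
    ext b
    rw [chB_apply, pair_comm, pair_zero_right, AddChar.map_zero_eq_one]
    rfl

theorem sum_chB (x : BB) : ∑ b, chB x b = if x = 0 then (Fintype.card BB : ℂ) else 0 := by
  classical
  rw [AddChar.sum_eq_ite]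
  simp only [chB_eq_zero_iff]

theorem sum_chB' (b : BB) : ∑ x, chB x b = if b = 0 then (Fintype.card BB : ℂ) else 0 := by
  rw [← sum_chB]
  refine Finset.sum_congr rfl fun x _ => ?_
  rw [chB_comm]

theorem chB_sub (x x' b : BB) : chB (x - x') b = chB x b * chB x' (-b) := by
  have h1 : chB x b = chB b x := chB_comm _ _
  have h2 : chB x' (-b) = chB b (-x') := by
    rw [chB_apply, chB_apply]
    congr 1
    simp only [pair]
    refine Finset.sum_congr rfl fun i _ => ?_
    simp only [Prod.fst_neg, Prod.snd_neg, Pi.neg_apply]; ring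
  rw [h1, h2, ← AddChar.map_add_eq_mul, chB_comm, sub_eq_add_neg]

theorem chB_mul_neg (x b : BB) : chB x b * chB x (-b) = 1 := by
  rw [← AddChar.map_add_eq_mul, add_neg_cancel, AddChar.map_zero_eq_one]

theorem card_BB_ne_zero : (Fintype.card BB : ℂ) ≠ 0 := by
  exact_mod_cast Fintype.card_ne_zero

namespace NG

/-- The embedding of `BB` into the group. -/
def io (b : BB) : NG := ⟨b.1, b.2, 0, 0, 0, 0⟩

theorem io_s (b : BB) (i : ZMod 3) : (io b).s i = b.1 i := rfl
theorem io_t (b : BB) (i : ZMod 3) : (io b).t i = b.2 i := rfl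
theorem io_y (b : BB) (i : ZMod 3) : (io b).y i = 0 := rfl
theorem io_v (b : BB) : (io b).v = 0 := rfl
theorem io_e (b : BB) : (io b).e = 0 := rfl
theorem io_k (b : BB) : (io b).k = 0 := rfl

theorem io_injective : Function.Injective io := by
  intro b c h
  have h1 : (io b).s = (io c).s := by rw [h]
  have h2 : (io b).t = (io c).t := by rw [h]
  exact Prod.ext h1 h2

theorem io_zero : io 0 = 1 := rfl

theorem io_add (b c : BB) : io (b + c) = io b * io c := by
  ext i
  · simp only [mul_s, io_s, io_v, io_k, uf_zero, sg_zero, add_zero, one_mul]; rfl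
  · simp only [mul_t, io_s, io_t, io_y, io_v, io_k, uf_zero, sg_zero, add_zero, one_mul, zero_mul]
    rfl
  · simp only [mul_y, io_y, add_zero]
  · simp only [mul_v, io_v, io_k, rot_zero, add_zero]
  · simp only [mul_v, io_v, io_k, rot_zero, add_zero]
  · simp only [mul_e, io_e, io_v, bet_zero_left, add_zero]
  · simp only [mul_k, io_k, add_zero]

/-- The action of the group on `BB`. -/
def act (g : NG) (b : BB) : BB :=
  (fun i => sg (uf g.v i) * b.1 (i + g.k),
   fun i => sg (uf g.v i) * b.2 (i + g.k) + g.y i * (sg (uf g.v i) * b.1 (i + g.k)))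

theorem mul_io (g : NG) (b : BB) : g * io b = io (act g b) * g := by
  ext i
  · simp only [mul_s, io_s, io_v, io_k, uf_zero, sg_zero, add_zero, one_mul, act]; ring
  · simp only [mul_t, io_s, io_t, io_y, io_v, io_k, uf_zero, sg_zero, add_zero, one_mul, act]; ring
  · simp only [mul_y, io_y, io_k, add_zero, zero_add]
  · simp only [mul_v, io_v, io_k, rot_zero, rot_map_zero, add_zero, zero_add]
  · simp only [mul_v, io_v, io_k, rot_zero, rot_map_zero, add_zero, zero_add]
  · simp only [mul_e, io_e, io_v, io_k, rot_map_zero, bet_zero_left, bet_zero_right, add_zero,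
      zero_add]
  · simp only [mul_k, io_k, add_zero, zero_add]

theorem io_act (g : NG) (b : BB) : io (act g b) = g * io b * g⁻¹ := by
  rw [mul_io, mul_assoc, mul_inv_cancel, mul_one]

theorem act_mul (g h : NG) (b : BB) : act (g * h) b = act g (act h b) := by
  apply io_injective
  simp only [io_act]; group

theorem act_one (b : BB) : act 1 b = b := by
  apply io_injective
  simp only [io_act]; group

/-- The adjoint action of the group on the labels of the characters. -/
def coact (g : NG) (x : BB) : BB :=
  (fun j => sg (uf g.v (j - g.k)) * (x.1 (j - g.k) + x.2 (j - g.k) * g.y (j - g.k)),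
   fun j => sg (uf g.v (j - g.k)) * x.2 (j - g.k))

theorem pair_act (g : NG) (x b : BB) : pair x (act g b) = pair (coact g x) b := by
  simp only [pair, act, coact]
  rw [← Equiv.sum_comp (Equiv.addRight g.k) (fun i => (sg (uf g.v (i - g.k)) *
    (x.1 (i - g.k) + x.2 (i - g.k) * g.y (i - g.k)) * b.1 i +
    sg (uf g.v (i - g.k)) * x.2 (i - g.k) * b.2 i))]
  refine Finset.sum_congr rfl fun i _ => ?_
  simp only [Equiv.coe_addRight, add_sub_cancel_right]
  ring

theorem pair_left_injective (x x' : BB) (h : ∀ b, pair x b = pair x' b) : x = x' := by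
  by_contra hne
  obtain ⟨b, hb⟩ := exists_pair_ne_zero (x - x') (sub_ne_zero.mpr hne)
  apply hb
  have h1 : pair (x - x') b + pair x' b = pair x b := by
    rw [pair_comm _ b, pair_comm _ b, pair_comm _ b, ← pair_add_right, sub_add_cancel]
  rw [h b] at h1
  simpa using h1

theorem coact_mul (g h : NG) (x : BB) : coact (g * h) x = coact h (coact g x) := by
  apply pair_left_injective
  intro b
  rw [← pair_act, act_mul, pair_act, pair_act]

theorem coact_one (x : BB) : coact 1 x = x := by
  apply pair_left_injective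
  intro b
  rw [← pair_act, act_one]

end NG

/-! ### Eigenspaces in representations -/

section eigen

variable {Γ : Type} [Group Γ] (j : Γ →* NG) (hj : Function.Injective j) (ι : BB → Γ)
  (hι : ∀ b, j (ι b) = NG.io b)
  {V : Type} [AddCommGroup V] [Module ℂ V] (ρ : Representation ℂ Γ V)

/-- The simultaneous eigenspace for the character with label `x`. -/
def eig (x : BB) : Submodule ℂ V where
  carrier := {w | ∀ b, ρ (ι b) w = chB x b • w}
  add_mem' := by
    intro v w hv hw b
    rw [map_add, hv b, hw b, smul_add]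
  zero_mem' := by intro b; simp
  smul_mem' := by
    intro c w hw b
    rw [map_smul, hw b, smul_comm]

theorem mem_eig (x : BB) (w : V) : w ∈ eig ι ρ x ↔ ∀ b, ρ (ι b) w = chB x b • w := Iff.rfl

/-- The unnormalised projection to the eigenspace. -/
noncomputable def prj (x : BB) : V →ₗ[ℂ] V := ∑ b, chB x (-b) • ρ (ι b)

theorem prj_apply (x : BB) (w : V) : prj ι ρ x w = ∑ b, chB x (-b) • ρ (ι b) w := by
  simp [prj, LinearMap.sum_apply]

include hj hι

theorem iota_add (b c : BB) : ι (b + c) = ι b * ι c := by
  apply hj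
  rw [map_mul, hι, hι, hι, NG.io_add]

theorem iota_zero : ι 0 = 1 := by
  apply hj
  rw [map_one, hι, NG.io_zero]

theorem prj_mem (x : BB) (w : V) : prj ι ρ x w ∈ eig ι ρ x := by
  intro b'
  rw [prj_apply, map_sum, Finset.smul_sum]
  rw [← Equiv.sum_comp (Equiv.addLeft b') (fun b => chB x b' • chB x (-b) • ρ (ι b) w)]
  refine Finset.sum_congr rfl fun b _ => ?_
  simp only [Equiv.coe_addLeft]
  rw [map_smul, smul_smul, iota_add j hj ι hι, map_mul]
  have h1 : chB x b' * chB x (-(b' + b)) = chB x (-b) := by
    rw [← AddChar.map_add_eq_mul]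
    congr 1
    abel
  rw [h1]
  rfl

omit hj hι in
theorem prj_of_mem (x x' : BB) (w : V) (hw : w ∈ eig ι ρ x') :
    prj ι ρ x w = (if x' = x then (Fintype.card BB : ℂ) else 0) • w := by
  rw [prj_apply]
  have h1 : ∀ b, chB x (-b) • ρ (ι b) w = chB (x' - x) b • w := by
    intro b
    rw [hw b, smul_smul, chB_sub, mul_comm]
  simp only [h1]
  rw [← Finset.sum_smul, sum_chB]
  simp only [sub_eq_zero]

theorem exists_eig (w : V) (hw : w ≠ 0) : ∃ x, ∃ w' ∈ eig ι ρ x, w' ≠ 0 := by
  by_contra hcon
  push Not at hcon
  have h0 : ∑ x, prj ι ρ x w = 0 := by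
    refine Finset.sum_eq_zero fun x _ => ?_
    exact hcon x _ (prj_mem j hj ι hι ρ x w)
  have h1 : ∑ x, prj ι ρ x w = (Fintype.card BB : ℂ) • w := by
    simp only [prj_apply]
    rw [Finset.sum_comm]
    have h2 : ∀ b : BB, ∑ x, chB x (-b) • ρ (ι b) w
        = if b = 0 then (Fintype.card BB : ℂ) • w else 0 := by
      intro b
      rw [← Finset.sum_smul, sum_chB']
      by_cases hb : b = 0
      · subst hb
        simp [iota_zero j hj ι hι]
      · simp [hb]
    simp only [h2, Finset.sum_ite_eq', Finset.mem_univ, if_true]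
  rw [h0] at h1
  exact (smul_ne_zero card_BB_ne_zero hw) h1.symm

/-- Moving eigenvectors by group elements. -/
theorem apply_mem_eig (g : Γ) (x x' : BB) (hx : NG.coact (j g) x' = x) (w : V)
    (hw : w ∈ eig ι ρ x) : ρ g w ∈ eig ι ρ x' := by
  intro b
  have hb : b = NG.act (j g) (NG.act (j g)⁻¹ b) := by
    rw [← NG.act_mul, mul_inv_cancel, NG.act_one]
  set b' := NG.act (j g)⁻¹ b with hb'
  have h1 : ι b * g = g * ι b' := by
    apply hj
    rw [map_mul, map_mul, hι, hι, NG.mul_io, ← hb]
  have h2 : ρ (ι b) (ρ g w) = ρ g (ρ (ι b') w) := by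
    have : ρ (ι b * g) w = ρ (g * ι b') w := by rw [h1]
    rw [map_mul, map_mul] at this
    exact this
  rw [h2, hw b', map_smul]
  congr 1
  rw [chB_apply, chB_apply]
  congr 1
  calc pair x b' = pair (NG.coact (j g) x') b' := by rw [hx]
    _ = pair x' (NG.act (j g) b') := (NG.pair_act _ _ _).symm
    _ = pair x' b := by rw [← hb]

omit hj hι in
/-- Nonzero vectors in distinct eigenspaces are linearly independent. -/
theorem linearIndependent_eig {J : Type} [Fintype J] (x : J → BB) (hx : Function.Injective x)
    (w : J → V) (hw : ∀ i, w i ∈ eig ι ρ (x i)) (hw0 : ∀ i, w i ≠ 0) :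
    LinearIndependent ℂ w := by
  classical
  rw [Fintype.linearIndependent_iff]
  intro c hc i
  have h1 : prj ι ρ (x i) (∑ i', c i' • w i') = 0 := by rw [hc, map_zero]
  rw [map_sum] at h1
  have h2 : ∀ i', prj ι ρ (x i) (c i' • w i')
      = if i' = i then ((Fintype.card BB : ℂ) * c i) • w i else 0 := by
    intro i'
    rw [map_smul, prj_of_mem ι ρ (x i) (x i') (w i') (hw i')]
    by_cases h : i' = i
    · subst h
      simp [smul_smul, mul_comm]
    · have : x i' ≠ x i := fun h' => h (hx h')
      simp [h, this]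
  simp only [h2, Finset.sum_ite_eq', Finset.mem_univ, if_true] at h1
  rcases smul_eq_zero.mp h1 with h | h
  · exact (mul_eq_zero.mp h).resolve_left card_BB_ne_zero
  · exact absurd h (hw0 i)

end eigen

end Pool.Agent.H13
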