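import Mathlib
import Pool.Agent.H13.NavChar

set_option autoImplicit false

/-!
# The upper bound: every simple representation of the group has dimension at most `108`
-/

namespace Pool.Agent.H13

open Module CategoryTheory

namespace NG

/-- The central involution. -/
def zz : NG := ⟨0, 0, 0, 0, 1, 0⟩

theorem zz_comm (g : NG) : zz * g = g * zz := by
  ext i
  · simp only [mul_s, zz, uf_zero, sg_zero, add_zero, one_mul, Pi.zero_apply, mul_zero, zero_add]
  · simp only [mul_t, zz, uf_zero, sg_zero, add_zero, one_mul, Pi.zero_apply, mul_zero, zero_add,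
      zero_mul]
  · simp only [mul_y, zz, add_zero, Pi.zero_apply, zero_add]
  · simp only [mul_v, zz, rot_zero, rot_map_zero, add_zero, zero_add]
  · simp only [mul_v, zz, rot_zero, rot_map_zero, add_zero, zero_add]
  · simp only [mul_e, zz, rot_zero, rot_map_zero, bet_zero_left, bet_zero_right]; ring
  · simp only [mul_k, zz, add_zero, zero_add]

theorem mul_zz_e (g : NG) : (g * zz).e = g.e + 1 := by
  simp only [mul_e, zz, rot_map_zero, bet_zero_right, add_zero]

theorem mul_zz_s (g : NG) : (g * zz).s = g.s := by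
  funext i
  simp only [mul_s, zz, Pi.zero_apply, mul_zero, add_zero]

theorem mul_zz_t (g : NG) : (g * zz).t = g.t := by
  funext i
  simp only [mul_t, zz, Pi.zero_apply, mul_zero, add_zero]

/-- If a subgroup contains the image of `BB`, the central involution and an element `g` such that
`1, g, g * g` are distinguished by a function `κ` invariant under the other two, then it has
order at least `4374`. -/
theorem card_ge (M : Subgroup NG) (hB : ∀ b, io b ∈ M) (hz : zz ∈ M) (g : NG) (hg : g ∈ M)
    (κ : NG → ZMod 3) (hκ1 : ∀ b h, κ (io b * h) = κ h) (hκ2 : ∀ h, κ (h * zz) = κ h)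
    (hκ3 : κ 1 = 0) (hκ4 : κ g = 1) (hκ5 : κ (g * g) = 2) : 4374 ≤ Nat.card M := by
  classical
  let p : Fin 3 → NG := ![1, g, g * g]
  let q : Fin 2 → NG := ![1, zz]
  have hp : ∀ i, p i ∈ M := by
    intro i
    fin_cases i
    · exact M.one_mem
    · exact hg
    · exact M.mul_mem hg hg
  have hq : ∀ i, q i ∈ M := by
    intro i
    fin_cases i
    · exact M.one_mem
    · exact hz
  let f : BB × Fin 3 × Fin 2 → M := fun x =>
    ⟨io x.1 * p x.2.1 * q x.2.2, M.mul_mem (M.mul_mem (hB _) (hp _)) (hq _)⟩
  have hκq : ∀ h i, κ (h * q i) = κ h := by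
    intro h i
    fin_cases i
    · simp [q]
    · exact hκ2 h
  have hκp : Function.Injective (fun i => κ (p i)) := by
    have h0 : κ (p 0) = 0 := hκ3
    have h1 : κ (p 1) = 1 := hκ4
    have h2 : κ (p 2) = 2 := hκ5
    intro i i' hii
    fin_cases i <;> fin_cases i' <;> simp_all <;> exact absurd hii (by decide)
  have hf : Function.Injective f := by
    rintro ⟨b, i, l⟩ ⟨b', i', l'⟩ h
    have h1 : io b * p i * q l = io b' * p i' * q l' := congrArg Subtype.val h
    have hi : i = i' := by
      apply hκp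
      have := congrArg κ h1
      rw [hκq, hκq, hκ1, hκ1] at this
      exact this
    subst hi
    have hcomm : ∀ (l : Fin 2) (h : NG), h * q l = q l * h := by
      intro l h
      fin_cases l
      · simp [q]
      · exact (zz_comm h).symm
    have h2 : io b * q l = io b' * q l' := by
      have h3 : io b * q l * p i = io b' * q l' * p i := by
        rw [mul_assoc, ← hcomm, ← mul_assoc, h1, mul_assoc, hcomm, ← mul_assoc]
      exact mul_right_cancel h3
    have hl : l = l' := by
      have := congrArg NG.e h2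
      fin_cases l <;> fin_cases l'
      · rfl
      · simp only [q] at this
        exfalso
        have h4 : (io b * 1).e = (io b' * zz).e := this
        rw [mul_one, mul_zz_e, io_e, io_e] at h4
        exact absurd h4 (by decide)
      · simp only [q] at this
        exfalso
        have h4 : (io b * zz).e = (io b' * 1).e := this
        rw [mul_one, mul_zz_e, io_e, io_e] at h4
        exact absurd h4 (by decide)
      · rfl
    subst hl
    have := io_injective (mul_right_cancel h2)
    rw [this]
  have h := Nat.card_le_card_of_injective f hf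
  have hc : Nat.card (BB × Fin 3 × Fin 2) = 4374 := by
    rw [Nat.card_eq_fintype_card]
    simp [Fintype.card_prod, Fintype.card_pi, ZMod.card]
  rw [hc] at h
  exact h

end NG

/-- The stabilizer of a line. -/
def lineStab {Γ : Type} [Group Γ] {V : Type} [AddCommGroup V] [Module ℂ V]
    (ρ : Representation ℂ Γ V) (v : V) (hv : v ≠ 0) : Subgroup Γ where
  carrier := {m | ∃ c : ℂ, ρ m v = c • v}
  mul_mem' := by
    rintro a b ⟨c, hc⟩ ⟨d, hd⟩
    refine ⟨d * c, ?_⟩
    rw [map_mul]
    change ρ a (ρ b v) = _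
    rw [hd, map_smul, hc, smul_smul]
  one_mem' := ⟨1, by simp⟩
  inv_mem' := by
    rintro a ⟨c, hc⟩
    have h1 : ρ a⁻¹ (ρ a v) = v := by
      change (ρ a⁻¹ * ρ a) v = v
      rw [← map_mul, inv_mul_cancel, map_one]; rfl
    have hc0 : c ≠ 0 := by
      rintro rfl
      rw [hc, zero_smul, map_zero] at h1
      exact hv h1.symm
    refine ⟨c⁻¹, ?_⟩
    rw [hc, map_smul] at h1
    rw [← h1, smul_smul, inv_mul_cancel₀ hc0, one_smul]
    exact congrArg (ρ a⁻¹) h1

/-- An endomorphism preserving a nonzero subspace has an eigenvector in it. -/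
theorem exists_eigenvector {V : Type} [AddCommGroup V] [Module ℂ V] [FiniteDimensional ℂ V]
    (f : V →ₗ[ℂ] V) (W : Submodule ℂ V) (hW : W ≠ ⊥) (hf : ∀ w ∈ W, f w ∈ W) :
    ∃ w ∈ W, w ≠ 0 ∧ ∃ c : ℂ, f w = c • w := by
  have : Nontrivial W := Submodule.nontrivial_iff_ne_bot.mpr hW
  obtain ⟨c, hc⟩ := Module.End.exists_eigenvalue (K := ℂ) (f.restrict hf)
  obtain ⟨w, hw⟩ := hc.exists_hasEigenvector
  refine ⟨w, w.2, ?_, c, ?_⟩
  · intro h
    exact hw.2 (Subtype.ext h)
  · have := hw.apply_eq_smul
    exact congrArg Subtype.val this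

/-- A central element acts by a scalar on a simple object. -/
theorem central_scalar {Γ : Type} [Group Γ] (V : FDRep ℂ Γ) [Simple V] (z : Γ)
    (hz : ∀ g, z * g = g * z) : ∃ c : ℂ, ∀ v : V, V.ρ z v = c • v := by
  have := nontrivial_of_simple V
  obtain ⟨w, -, hw0, c, hc⟩ := exists_eigenvector (V.ρ z) ⊤ (by simp) (by simp)
  let W : Submodule ℂ V :=
    { carrier := {v | V.ρ z v = c • v}
      add_mem' := by
        intro a b ha hb
        change V.ρ z (a + b) = c • (a + b)
        rw [map_add, smul_add]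
        exact congrArg₂ _ ha hb
      zero_mem' := by simp
      smul_mem' := by
        intro d a ha
        change V.ρ z (d • a) = c • (d • a)
        rw [map_smul, smul_comm]
        exact congrArg _ ha }
  have hW : W = ⊤ := by
    apply eq_top_of_simple V W
    · intro g v hv
      change V.ρ z (V.ρ g v) = c • V.ρ g v
      have h1 : V.ρ z (V.ρ g v) = V.ρ g (V.ρ z v) := by
        change (V.ρ z * V.ρ g) v = (V.ρ g * V.ρ z) v
        rw [← map_mul, ← map_mul, hz]
      rw [h1, ← map_smul]
      exact congrArg _ hv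
    · intro hbot
      have : w ∈ W := hc
      rw [hbot, Submodule.mem_bot] at this
      exact hw0 this
  refine ⟨c, fun v => ?_⟩
  have : v ∈ W := by rw [hW]; trivial
  exact this

/-- The final step of the upper bound. -/
theorem finrank_le_108_of (V : FDRep ℂ NG) [Simple V] (x : BB) (w : V)
    (hw : w ∈ eig NG.io V.ρ x) (hw0 : w ≠ 0) (g : NG) (hg : NG.coact g x = x)
    (κ : NG → ZMod 3) (hκ1 : ∀ b h, κ (NG.io b * h) = κ h) (hκ2 : ∀ h, κ (h * NG.zz) = κ h)
    (hκ3 : κ 1 = 0) (hκ4 : κ g = 1) (hκ5 : κ (g * g) = 2) : finrank ℂ V ≤ 108 := by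
  have hj : Function.Injective (MonoidHom.id NG) := fun a b h => h
  have hι : ∀ b, MonoidHom.id NG (NG.io b) = NG.io b := fun b => rfl
  obtain ⟨v, hv, hv0, c, hc⟩ := exists_eigenvector (V.ρ g) (eig NG.io V.ρ x)
    ((Submodule.ne_bot_iff _).mpr ⟨w, hw, hw0⟩)
    (fun u hu => apply_mem_eig (MonoidHom.id NG) hj NG.io hι V.ρ g x x hg u hu)
  obtain ⟨d, hd⟩ := central_scalar V NG.zz NG.zz_comm
  let M := lineStab V.ρ v hv0
  have hM : 4374 ≤ Nat.card M :=
    NG.card_ge M (fun b => ⟨_, hv b⟩) ⟨_, hd v⟩ g ⟨c, hc⟩ κ hκ1 hκ2 hκ3 hκ4 hκ5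
  have h1 : finrank ℂ V ≤ M.index := finrank_le_index V v hv0 M (fun m hm => hm)
  have h2 : M.index * Nat.card M = 472392 := by
    rw [mul_comm, M.card_mul_index, Nat.card_eq_fintype_card, NG.card_NG]
  have h3 : M.index * 4374 ≤ 472392 := by
    rw [← h2]; exact Nat.mul_le_mul_left _ hM
  omega

/-- Sign pattern attached to a nowhere vanishing vector. -/
theorem exists_sign : ∀ c0 c1 c2 : ZMod 3, c0 ≠ 0 → c1 ≠ 0 → c2 ≠ 0 →
    ∃ v : ZMod 2 × ZMod 2, sg (uf v 0) * c0 = c1 ∧ sg (uf v 1) * c1 = c2 ∧
      sg (uf v 2) * c2 = c0 := by decide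

/-- Every simple representation of the group has dimension at most `108`. -/
theorem finrank_le_108 (V : FDRep ℂ NG) [Simple V] : finrank ℂ V ≤ 108 := by
  have hj : Function.Injective (MonoidHom.id NG) := fun a b h => h
  have hι : ∀ b, MonoidHom.id NG (NG.io b) = NG.io b := fun b => rfl
  have := nontrivial_of_simple V
  obtain ⟨v0, hv0⟩ := exists_ne (0 : V)
  obtain ⟨x, w, hw, hw0⟩ := exists_eig (MonoidHom.id NG) hj NG.io hι V.ρ v0 hv0
  by_cases hx : ∃ i, x.2 i = 0
  · obtain ⟨i, hi⟩ := hx
    refine finrank_le_108_of V x w hw hw0 ⟨0, 0, Pi.single i 1, 0, 0, 0⟩ ?_ (fun h => h.y i)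
      ?_ ?_ ?_ ?_ ?_
    · apply Prod.ext
      · funext j
        simp only [NG.coact, uf_zero, sg_zero, sub_zero, one_mul]
        by_cases hji : j = i
        · subst hji; simp [hi]
        · simp [hji]
      · funext j
        simp only [NG.coact, uf_zero, sg_zero, sub_zero, one_mul]
    · intro b h
      simp only [NG.mul_y, NG.io_y, NG.io_k, add_zero, zero_add]
    · intro h
      simp only [NG.mul_y, NG.zz, Pi.zero_apply, add_zero]
    · rfl
    · simp
    · simp only [NG.mul_y, add_zero, Pi.single_eq_same]; decide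
  · push Not at hx
    -- move to trivial first component
    let g0 : NG := ⟨0, 0, fun i => x.1 i * x.2 i, 0, 0, 0⟩
    have hsq : ∀ a : ZMod 3, a ≠ 0 → a * a = 1 := by decide
    have hco : NG.coact g0 (0, x.2) = x := by
      apply Prod.ext
      · funext j
        simp only [NG.coact, g0, uf_zero, sg_zero, sub_zero, one_mul, Pi.zero_apply, zero_add]
        have := hsq _ (hx j)
        linear_combination (x.1 j) * this
      · funext j
        simp only [NG.coact, g0, uf_zero, sg_zero, sub_zero, one_mul]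
    have hw' := apply_mem_eig (MonoidHom.id NG) hj NG.io hι V.ρ g0 x (0, x.2) hco w hw
    have hw0' : V.ρ g0 w ≠ 0 := by
      intro h
      apply hw0
      have h1 : V.ρ g0⁻¹ (V.ρ g0 w) = w := by
        change (V.ρ g0⁻¹ * V.ρ g0) w = w
        rw [← map_mul, inv_mul_cancel, map_one]; rfl
      rw [← h1, h, map_zero]
    obtain ⟨u, hu0, hu1, hu2⟩ := exists_sign (x.2 0) (x.2 1) (x.2 2) (hx 0) (hx 1) (hx 2)
    refine finrank_le_108_of V (0, x.2) (V.ρ g0 w) hw' hw0' ⟨0, 0, 0, u, 0, 1⟩ ?_ (fun h => h.k)
      ?_ ?_ ?_ ?_ ?_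
    · apply Prod.ext
      · funext j
        simp only [NG.coact, Pi.zero_apply, mul_zero, add_zero]
      · funext j
        simp only [NG.coact]
        fin_cases j
        · exact hu2
        · exact hu0
        · exact hu1
    · intro b h
      simp only [NG.mul_k, NG.io_k, zero_add]
    · intro h
      simp only [NG.mul_k, NG.zz, add_zero]
    · rfl
    · rfl
    · rfl

end Pool.Agent.H13
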