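import Mathlib
import Pool.Agent.H13.NavUpper

set_option autoImplicit false

/-!
# The lower bounds for the Sylow subgroups
-/

namespace Pool.Agent.H13

open Module CategoryTheory

namespace NG

/-- The subgroup of order `3 ^ 10`. -/
def P3 : Subgroup NG where
  carrier := {g | g.v = 0 ∧ g.e = 0}
  mul_mem' := by
    rintro a b ⟨h1, h2⟩ ⟨h3, h4⟩
    refine ⟨?_, ?_⟩
    · rw [mul_v, h1, h3, rot_map_zero, add_zero]
    · rw [mul_e, h1, h2, h4, bet_zero_left]; rfl
  one_mem' := ⟨rfl, rfl⟩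
  inv_mem' := by
    rintro a ⟨h1, h2⟩
    refine ⟨?_, ?_⟩
    · rw [inv_v, h1, rot_map_zero]
    · rw [inv_e, h1, h2, bet_zero_left]; rfl

/-- The underlying product type of `P3`. -/
def equivP3 : P3 ≃ F3 × F3 × F3 × ZMod 3 where
  toFun g := (g.1.s, g.1.t, g.1.y, g.1.k)
  invFun p := ⟨⟨p.1, p.2.1, p.2.2.1, 0, 0, p.2.2.2⟩, rfl, rfl⟩
  left_inv := by
    rintro ⟨g, h1, h2⟩
    apply Subtype.ext
    exact NG.ext rfl rfl rfl h1.symm h2.symm rfl
  right_inv _ := rfl

theorem card_P3 : Nat.card P3 = 3 ^ 10 := by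
  rw [Nat.card_congr equivP3, Nat.card_eq_fintype_card]
  simp [Fintype.card_prod, Fintype.card_pi, ZMod.card]

/-- The subgroup isomorphic to the quaternion group of order `8`. -/
def P2 : Subgroup NG where
  carrier := {g | g.s = 0 ∧ g.t = 0 ∧ g.y = 0 ∧ g.k = 0}
  mul_mem' := by
    rintro a b ⟨h1, h2, h3, h4⟩ ⟨h5, h6, h7, h8⟩
    refine ⟨?_, ?_, ?_, ?_⟩
    · funext i; rw [mul_s, h1, h5]; simp
    · funext i; rw [mul_t, h2, h6, h5]; simp
    · funext i; rw [mul_y, h3, h7]; simp
    · rw [mul_k, h4, h8, add_zero]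
  one_mem' := ⟨rfl, rfl, rfl, rfl⟩
  inv_mem' := by
    rintro a ⟨h1, h2, h3, h4⟩
    refine ⟨?_, ?_, ?_, ?_⟩
    · funext i; rw [inv_s, h1]; simp
    · funext i; rw [inv_t, h1, h2, h3]; simp
    · funext i; rw [inv_y, h3]; simp
    · rw [inv_k, h4, neg_zero]

/-- The underlying product type of `P2`. -/
def equivP2 : P2 ≃ (ZMod 2 × ZMod 2) × ZMod 2 where
  toFun g := (g.1.v, g.1.e)
  invFun p := ⟨⟨0, 0, 0, p.1, p.2, 0⟩, rfl, rfl, rfl, rfl⟩
  left_inv := by
    rintro ⟨g, h1, h2, h3, h4⟩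
    apply Subtype.ext
    exact NG.ext h1.symm h2.symm h3.symm rfl rfl h4.symm
  right_inv _ := rfl

theorem card_P2 : Nat.card P2 = 2 ^ 3 := by
  rw [Nat.card_congr equivP2, Nat.card_eq_fintype_card]
  simp [Fintype.card_prod, ZMod.card]

/-- The label of the starting character. -/
def c0 : F3 := fun i => if i = 2 then -1 else 1

theorem c0_ne : ∀ i, c0 i ≠ 0 := by decide

theorem c0_shift : ∀ k l : ZMod 3, (∀ j, c0 (j - k) = c0 (j - l)) → k = l := by decide

/-- The `81` elements moving the starting character. -/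
def gg (p : F3 × ZMod 3) : NG := ⟨0, 0, p.1, 0, 0, p.2⟩

theorem gg_mem (p : F3 × ZMod 3) : gg p ∈ P3 := ⟨rfl, rfl⟩

theorem coact_gg_injective : Function.Injective (fun p => coact (gg p) (0, c0)) := by
  rintro ⟨y, k⟩ ⟨y', k'⟩ h
  have h2 : ∀ j, c0 (j - k) = c0 (j - k') := by
    intro j
    have := congrFun (congrArg Prod.snd h) j
    simpa only [coact, gg, uf_zero, sg_zero, one_mul] using this
  have hk := c0_shift k k' h2
  subst hk
  have h1 : ∀ j, c0 (j - k) * y (j - k) = c0 (j - k) * y' (j - k) := by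
    intro j
    have := congrFun (congrArg Prod.fst h) j
    simpa only [coact, gg, uf_zero, sg_zero, one_mul, Pi.zero_apply, zero_add] using this
  have hy : y = y' := by
    funext i
    have := h1 (i + k)
    rw [add_sub_cancel_right] at this
    have hc := c0_ne i
    have hF : Fact (Nat.Prime 3) := ⟨by norm_num⟩
    exact mul_left_cancel₀ hc this
  rw [hy]

end NG

/-- Every Sylow `3`-subgroup containing `P3` has a simple representation of dimension
at least `81`. -/
theorem exists_simple_81 (P : Subgroup NG) (hP : NG.P3 ≤ P) :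
    ∃ V : FDRep ℂ P, Simple V ∧ 81 ≤ finrank ℂ V := by
  classical
  let ι : BB → P := fun b => ⟨NG.io b, hP ⟨rfl, rfl⟩⟩
  have hj : Function.Injective P.subtype := P.subtype_injective
  have hι : ∀ b, P.subtype (ι b) = NG.io b := fun b => rfl
  let e : MonoidAlgebra ℂ P := ∑ b, MonoidAlgebra.single (ι b) (chB (0, NG.c0) (-b))
  have he : e ≠ 0 := by
    intro h
    have h1 : e.coeff (ι 0) = 0 := by rw [h]; rfl
    have h2 : e.coeff (ι 0) = 1 := by
      simp only [e, MonoidAlgebra.coeff_sum, Finsupp.coe_finsetSum, Finset.sum_apply,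
        MonoidAlgebra.coeff_single]
      rw [Finset.sum_eq_single 0]
      · rw [Finsupp.single_eq_same, neg_zero, AddChar.map_zero_eq_one]
      · intro b _ hb
        rw [Finsupp.single_eq_of_ne]
        intro hb'
        apply hb
        apply NG.io_injective
        exact (congrArg Subtype.val hb').symm
      · intro h; exact absurd (Finset.mem_univ _) h
    rw [h1] at h2
    exact zero_ne_one h2
  obtain ⟨V, hV, v, hv⟩ := exists_simple_apply_ne_zero e he
  refine ⟨V, hV, ?_⟩
  have h1 : Representation.asAlgebraHom V.ρ e v = prj ι V.ρ (0, NG.c0) v := by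
    rw [prj_apply]
    simp only [e, map_sum, Representation.asAlgebraHom_single, LinearMap.sum_apply,
      LinearMap.smul_apply]
  rw [h1] at hv
  set w := prj ι V.ρ (0, NG.c0) v with hw
  have hwm : w ∈ eig ι V.ρ (0, NG.c0) := prj_mem P.subtype hj ι hι V.ρ _ v
  let g' : F3 × ZMod 3 → P := fun p => (⟨NG.gg p, hP (NG.gg_mem p)⟩ : P)⁻¹
  have hlin : LinearIndependent ℂ (fun p => V.ρ (g' p) w) := by
    apply linearIndependent_eig ι V.ρ (fun p => NG.coact (NG.gg p) (0, NG.c0))
      NG.coact_gg_injective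
    · intro p
      apply apply_mem_eig P.subtype hj ι hι V.ρ (g' p) (0, NG.c0)
      · change NG.coact (NG.gg p)⁻¹ _ = _
        rw [← NG.coact_mul, mul_inv_cancel, NG.coact_one]
      · exact hwm
    · intro p h
      apply hv
      have h2 : V.ρ (g' p)⁻¹ (V.ρ (g' p) w) = w := by
        change (V.ρ (g' p)⁻¹ * V.ρ (g' p)) w = w
        rw [← map_mul, inv_mul_cancel, map_one]; rfl
      rw [← h2, h, map_zero]
  have h3 := hlin.fintype_card_le_finrank
  have h4 : Fintype.card (F3 × ZMod 3) = 81 := by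
    simp [Fintype.card_prod, Fintype.card_pi, ZMod.card]
  rwa [h4] at h3

/-- A group with two non-commuting elements has a simple representation of dimension
at least `2`. -/
theorem exists_simple_two {Γ : Type} [Group Γ] [Finite Γ] (a b : Γ) (hab : a * b ≠ b * a) :
    ∃ V : FDRep ℂ Γ, Simple V ∧ 2 ≤ finrank ℂ V := by
  classical
  let e : MonoidAlgebra ℂ Γ := MonoidAlgebra.single (a * b) 1 - MonoidAlgebra.single (b * a) 1
  have he : e ≠ 0 := by
    intro h
    apply hab
    exact MonoidAlgebra.of_injective (R := ℂ) (sub_eq_zero.mp h)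
  obtain ⟨V, hV, v, hv⟩ := exists_simple_apply_ne_zero e he
  refine ⟨V, hV, ?_⟩
  by_contra hlt
  have hle : finrank ℂ V ≤ 1 := by omega
  apply hv
  have h1 : Representation.asAlgebraHom V.ρ e v = V.ρ a (V.ρ b v) - V.ρ b (V.ρ a v) := by
    simp only [e, map_sub, Representation.asAlgebraHom_single, LinearMap.sub_apply, one_smul,
      map_mul]
    rfl
  rw [h1]
  obtain ⟨u, hu⟩ := finrank_le_one_iff.mp hle
  obtain ⟨α, hα⟩ := hu (V.ρ a u)
  obtain ⟨β, hβ⟩ := hu (V.ρ b u)
  obtain ⟨γ, hγ⟩ := hu v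
  rw [← hγ]
  simp only [map_smul, ← hα, ← hβ, smul_smul]
  rw [sub_eq_zero]
  congr 1
  ring

end Pool.Agent.H13
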